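import Mathlib
import Pool.Agent.Q98.SR.S

/-!
# Measures of polynomials with zeros of bounded degree over Galois fields of finite exponent modulo
the centre

Fix `d, D ≥ 1`.  The class consists of the monic integer polynomials all of whose zeros (different
from zero and not roots of unity) have degree at most `D` over a finite Galois extension of `ℚ`, which
may depend on the zero, in whose Galois group all `d`-th powers are central.  (For example, all
polynomials with zeros of degree at most `D` over abelian fields, for `d = 1`.)  The class contains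
reciprocal polynomials of unbounded degree and length.

The set of the Mahler measures of the polynomials of the class is finite below every bound.  Its
products with closed sets of reals `≥ 1` are closed; in particular its products with the closed sets
`L K` of the starting library (whose union is the set of all Mahler measures) are closed and consist
of Mahler measures.  The monoid generated by it and any set with bounded companions has its closure
inside the set of Mahler measures, a gap above `1`, and finite Cantor-Bendixson rank below every bound.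
-/

set_option autoImplicit false

namespace Pool.Agent.Results.MP_6d22ea_nt.BoundedDegreeMeasures

open Polynomial

noncomputable section

/-- Value of an integer polynomial in `k` variables at the torus point
`(exp (2 π i t_1), …, exp (2 π i t_k))`. -/
def value {k : ℕ} (F : MvPolynomial (Fin k) ℤ) (t : Fin k → ℝ) : ℂ :=
  MvPolynomial.eval (fun j : Fin k => Complex.exp (2 * (Real.pi : ℂ) * Complex.I * ((t j : ℝ) : ℂ)))
    (MvPolynomial.map (Int.castRingHom ℂ) F)

/-- The Mahler measure of an integer polynomial in `k` variables. -/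
def mahler {k : ℕ} (F : MvPolynomial (Fin k) ℤ) : ℝ :=
  Real.exp (∫ t in Set.Icc (0 : Fin k → ℝ) 1, Real.log ‖value F t‖)

/-- The integral of `log max(|F|, |G|)` over the torus. -/
def pairHeight {k : ℕ} (F G : MvPolynomial (Fin k) ℤ) : ℝ :=
  ∫ t in Set.Icc (0 : Fin k → ℝ) 1, Real.log (max ‖value F t‖ ‖value G t‖)

/-- The set of the Mahler measures of the nonzero integer polynomials in any number of variables. -/
def allMeasures : Set ℝ :=
  {x : ℝ | ∃ k : ℕ, 1 ≤ k ∧ ∃ F : MvPolynomial (Fin k) ℤ, F ≠ 0 ∧ x = mahler F}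

/-- The Mahler measures of the nonzero polynomials `F` having a coprime companion `G ≠ 0` with
`∫ log max(|F|, |G|) ≤ K`. -/
def L (K : ℝ) : Set ℝ :=
  {x : ℝ | ∃ k : ℕ, 1 ≤ k ∧ ∃ F G : MvPolynomial (Fin k) ℤ, F ≠ 0 ∧ G ≠ 0 ∧ IsRelPrime F G ∧
    pairHeight F G ≤ K ∧ x = mahler F}

/-- For every `B` some `L K` contains all elements of `T` below `B`. -/
def BoundedCompanions (T : Set ℝ) : Prop := ∀ B : ℝ, ∃ K : ℝ, T ∩ Set.Iio B ⊆ L K

/-- `α` has degree at most `D` over a finite Galois extension of `ℚ` in whose Galois group all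
`d`-th powers are central -/
def BoundedOver (d D : ℕ) (α : ℂ) : Prop :=
  ∃ E : IntermediateField ℚ ℂ, FiniteDimensional ℚ E ∧ IsGalois ℚ E ∧
    (∀ σ τ : E ≃ₐ[ℚ] E, σ ^ d * τ = τ * σ ^ d) ∧ (minpoly E α).natDegree ≤ D

/-- The Mahler measures of the monic integer polynomials whose zeros, apart from zero and roots of
unity, have degree at most `D` over such fields. -/
def classMeasures (d D : ℕ) : Set ℝ :=
  {x : ℝ | ∃ f : ℤ[X], (f.Monic ∧ ∀ α : ℂ, aeval α f = 0 → α ≠ 0 →
    (∀ k : ℕ, 0 < k → α ^ k ≠ 1) → BoundedOver d D α) ∧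
    x = (f.map (Int.castRingHom ℂ)).mahlerMeasure}

theorem result (d D : ℕ) (hd : 0 < d) (hD : 0 < D) :
    (∀ B : ℝ, (classMeasures d D ∩ Set.Iic B).Finite) ∧
    (1 ∈ classMeasures d D ∧ ∀ x ∈ classMeasures d D, ∀ y ∈ classMeasures d D,
      x * y ∈ classMeasures d D) ∧
    (∀ T : Set ℝ, IsClosed T → (∀ x ∈ T, 1 ≤ x) →
      IsClosed {z : ℝ | ∃ s ∈ classMeasures d D, ∃ t ∈ T, z = s * t}) ∧
    (∀ K : ℝ, IsClosed {z : ℝ | ∃ s ∈ classMeasures d D, ∃ t ∈ L K, z = s * t} ∧
      {z : ℝ | ∃ s ∈ classMeasures d D, ∃ t ∈ L K, z = s * t} ⊆ allMeasures) ∧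
    (∀ T : Set ℝ, BoundedCompanions T →
      closure ((Submonoid.closure (T ∪ classMeasures d D) : Submonoid ℝ) : Set ℝ) ⊆
        allMeasures ∧
      (∃ δ : ℝ, 1 < δ ∧ ∀ x ∈ (Submonoid.closure (T ∪ classMeasures d D) : Submonoid ℝ),
        x = 1 ∨ δ ≤ x) ∧
      ∀ B : ℝ, ∃ m : ℕ, ∀ x ∈ derivedSet^[m]
        ((Submonoid.closure (T ∪ classMeasures d D) : Submonoid ℝ) : Set ℝ), B ≤ x) := by
  have hfin : ∀ B : ℝ, (classMeasures d D ∩ Set.Iic B).Finite :=
    fun B => Pool.Agent.Q98.SR.SS_finite d D hd hD B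
  have hge : ∀ x ∈ classMeasures d D, 1 ≤ x := fun x hx => Pool.Agent.Q98.SR.SS_ge d D hx
  have hBC : Pool.Agent.TH845.KN.BC (classMeasures d D) := Pool.Agent.Q98.SR.SS_BC d D hd hD
  have hmon : ∀ T : Set ℝ, BoundedCompanions T → Pool.Agent.TH845.KN.BC
      ((Submonoid.closure (T ∪ classMeasures d D) : Submonoid ℝ) : Set ℝ) := fun T hT =>
    Pool.Agent.TH845.KN.BC_monoid (Pool.Agent.TH845.KN.BC.union hT hBC)
  refine ⟨hfin, ⟨Pool.Agent.Q98.SR.SS_one d D, fun x hx y hy =>
    Pool.Agent.Q98.SR.SS_mul d D hx hy⟩, ?_, ?_, ?_⟩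
  · intro T hT hT1
    exact Pool.Agent.Q98.SR.closed_prod hfin hge hT hT1
  · intro K
    refine ⟨Pool.Agent.Q98.SR.closed_prod hfin hge (Pool.Agent.H261R2.CM.closed_LL K)
      (fun x hx => Pool.Agent.TH845.KN.one_le_of_LL hx), ?_⟩
    have hT : BoundedCompanions (L K) := fun B => ⟨K, Set.inter_subset_left⟩
    obtain ⟨h2, -⟩ := Pool.Agent.W242.IM.closure_of_LL _ (hmon (L K) hT)
    rintro z ⟨s, hs, t, ht, rfl⟩
    apply h2
    apply subset_closure
    exact Submonoid.mul_mem _ (Submonoid.subset_closure (Or.inr hs))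
      (Submonoid.subset_closure (Or.inl ht))
  · intro T hT
    have h1 := hmon T hT
    obtain ⟨h2, h3⟩ := Pool.Agent.W242.IM.closure_of_LL _ h1
    exact ⟨h2, Pool.Agent.TH845.KN.gap_BC h1, h3⟩

end

end Pool.Agent.Results.MP_6d22ea_nt.BoundedDegreeMeasures
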