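import Mathlib
import Pool.Agent.Q50.TB.Fin
import Pool.Agent.W242.IM.Final2

/-!
# Mahler measures of the Alexander polynomials of closed braids with few torus blocks

We consider the braids `β = δ(i_1, r_1) ^ s_1 ⋯ δ(i_ℓ, r_ℓ) ^ s_ℓ`, `s_j` arbitrary integers, on `n`
strands, where `δ(i, r)` is the torus braid on the `r ≥ 2` consecutive strands `i, …, i + r - 1`
(powers of a generator for `r = 2`; the full twist of the `r` strands is `δ(i, r) ^ r`), and the
integer polynomials `D ≠ 0` for which `det (1 - ψ(β)) = D C`, up to a power of `t`, with an integer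
polynomial `C`; here `ψ` is the reduced Burau representation. For `C = 1 + t + ⋯ + t ^ (n-1)` the
polynomial `D` is the Alexander polynomial of the closure of `β`.

For every `S`, the closure of the set of the Mahler measures of all these `D` with
`n + r_1 + ⋯ + r_ℓ + log L(C) ≤ S` (`L(C)` is the length of `C`; no condition on the exponents `s_j`,
so that the number of crossings is unbounded) consists of Mahler measures of integer polynomials in
several variables, and it has finite Cantor-Bendixson rank: some iterated derived set is empty.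

(For fixed blocks Silver and Williams describe the limits of the measures when the exponents tend to
infinity in general position; here the whole closure is treated, for all braids with `S` bounded,
with all factors `D`.)
-/

set_option autoImplicit false

open Polynomial

namespace Pool.Agent.Results.MP_6d22ea_nt.TorusBraids

open Pool.Agent.Q50.TB

noncomputable section

/-- Value of an integer polynomial in `k` variables at the torus point
`(exp (2 π i t_1), …, exp (2 π i t_k))`. -/
def value {k : ℕ} (F : MvPolynomial (Fin k) ℤ) (t : Fin k → ℝ) : ℂ :=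
  MvPolynomial.eval (fun j : Fin k => Complex.exp (2 * (Real.pi : ℂ) * Complex.I * ((t j : ℝ) : ℂ)))
    (MvPolynomial.map (Int.castRingHom ℂ) F)

/-- The Mahler measure of an integer polynomial in `k` variables. -/
def mahler {k : ℕ} (F : MvPolynomial (Fin k) ℤ) : ℝ :=
  Real.exp (∫ t in Set.Icc (0 : Fin k → ℝ) 1, Real.log ‖value F t‖)

/-- The set of the Mahler measures of the nonzero integer polynomials in any number of variables. -/
def allMeasures : Set ℝ :=
  {x : ℝ | ∃ k : ℕ, 1 ≤ k ∧ ∃ F : MvPolynomial (Fin k) ℤ, F ≠ 0 ∧ x = mahler F}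

/-- The Mahler measures of the factors `D` with parameter at most `S`. -/
def braidMeasures (S : ℝ) : Set ℝ :=
  {x : ℝ | ∃ (N : ℕ) (w : List (ℕ × ℕ × ℤ)) (D C : ℤ[X]), Valid N w ∧ Compl N w D C ∧ C ≠ 0 ∧
    D ≠ 0 ∧ size N w + Real.log (len C) ≤ S ∧ x = (D.map (Int.castRingHom ℂ)).mahlerMeasure}

theorem sub_LL (S : ℝ) : braidMeasures S ⊆ Pool.Agent.H261R2.CM.LL (5 * S) := by
  rintro x ⟨N, w, D, C, hw, hD, hC, hD0, hS, rfl⟩
  apply Pool.Agent.W242.IM.m1_mem_LL D 1 hD0 one_ne_zero isRelPrime_one_right
  have h1 := mean_le' w hw D C hD hC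
  have h2 : Pool.Agent.H261R2.CM.mx1 D 1 =
      Real.circleAverage (fun z : ℂ => Real.posLog ‖aeval z D‖) 0 1 := by
    rw [Pool.Agent.H261R2.CM.D_circleAverage]
    unfold Pool.Agent.H261R2.CM.mx1
    refine intervalIntegral.integral_congr fun t _ => ?_
    simp only [Pool.Agent.H261R2.CM.ev1_one, norm_one]
    rw [Real.posLog_eq_log_max_one (norm_nonneg _), max_comm]
    congr 2
    unfold Pool.Agent.H261R2.CM.ev1 Pool.Agent.H261R2.CM.toC
    rw [eval_map]
    rfl
  rw [h2]
  linarith

theorem result (S : ℝ) :
    closure (braidMeasures S) ⊆ allMeasures ∧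
      ∃ m : ℕ, derivedSet^[m] (closure (braidMeasures S)) = ∅ := by
  have hcl : closure (braidMeasures S) ⊆ Pool.Agent.H261R2.CM.LL (5 * S) :=
    (Pool.Agent.H261R2.CM.closed_LL _).closure_subset_iff.mpr (sub_LL S)
  refine ⟨hcl.trans (Pool.Agent.W242.IM.LL_sub _), ?_⟩
  obtain ⟨m, hm⟩ := Pool.Agent.H887R3.LW.finite_rank (5 * S)
  refine ⟨m, ?_⟩
  have h := Pool.Agent.H887R3.LW.iterate_derived_mono hcl m
  rw [hm] at h
  exact Set.subset_eq_empty h rfl

end

end Pool.Agent.Results.MP_6d22ea_nt.TorusBraids
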