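import Mathlib
import Pool.Agent.Q188.RK.Fin
import Pool.Agent.TH845.KN.B2

/-!
# Mahler measures of integer matrices with bounded growth of volumes

Let `A` and `A + D` be integer matrices of any size `n` and `G` an inner product on `ℂ ^ n`. Suppose that
one of the two matrices increases in one step the volumes of the parallelepipeds of all dimensions
`k ≤ n`, measured with `G`, at most by the factor `K ^ (1/2)`, that `D` has rank at most `s` and norm at
most `L ^ (1/2)`, and that every common divisor of the characteristic polynomials of `A` and `A + D` has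
Mahler measure one (for instance, the polynomial of `A` is irreducible and different from that of `A + D`,
or one of the two matrices has entropy zero). Let `T` be the set of the Mahler measures of the
characteristic polynomials of all these matrices `A`, for fixed `L`, `K`, `s` and all `n`, `D`, `G`.

The closure of `T` consists of Mahler measures of integer polynomials in several variables, and it has
finite Cantor-Bendixson rank. The closure of the multiplicative monoid generated by `T` (direct sums of the
matrices) consists of Mahler measures of integer polynomials in several variables too; below every bound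
this monoid has finite Cantor-Bendixson rank.

Proof. The height `∫ log max(|P|, |Q|)` of the pair of the two characteristic polynomials is bounded in
terms of `L`, `K`, `s` (`Q188.RK`: majorants of `Aᴴ G A`, their behaviour under changes of rank one, and the
formula of Cartan and Jensen for the height of a pencil). For coprime pairs of bounded height the statement
is known (starting library: `closed_LL`, `finite_rank`, `BC_monoid`).
-/

set_option autoImplicit false

open Polynomial Matrix
open scoped ComplexOrder

namespace Pool.Agent.Results.MP_6d22ea_nt.VolumeGrowthClosure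

noncomputable section

/-- Value of an integer polynomial in `k` variables at the torus point
`(exp (2 π i t_1), …, exp (2 π i t_k))`. -/
def value {k : ℕ} (F : MvPolynomial (Fin k) ℤ) (t : Fin k → ℝ) : ℂ :=
  MvPolynomial.eval (fun j : Fin k => Complex.exp (2 * (Real.pi : ℂ) * Complex.I * ((t j : ℝ) : ℂ)))
    (MvPolynomial.map (Int.castRingHom ℂ) F)

/-- The Mahler measure of an integer polynomial in `k` variables. -/
def mahler {k : ℕ} (F : MvPolynomial (Fin k) ℤ) : ℝ :=
  Real.exp (∫ t in Set.Icc (0 : Fin k → ℝ) 1, Real.log ‖value F t‖)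

/-- The set of the Mahler measures of the nonzero integer polynomials in any number of variables. -/
def allMeasures : Set ℝ :=
  {x : ℝ | ∃ k : ℕ, 1 ≤ k ∧ ∃ F : MvPolynomial (Fin k) ℤ, F ≠ 0 ∧ x = mahler F}

/-- An integer matrix as a complex matrix. -/
abbrev toComplex {n : ℕ} (A : Matrix (Fin n) (Fin n) ℤ) : Matrix (Fin n) (Fin n) ℂ :=
  A.map (Int.castRingHom ℂ)

/-- The square of the `k`-dimensional volume, with respect to the inner product `x, y ↦ xᴴ G y`, of the
parallelepiped spanned by the columns of `X` (the Gram determinant). -/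
def sqVolume {n k : ℕ} (G : Matrix (Fin n) (Fin n) ℂ) (X : Matrix (Fin n) (Fin k) ℂ) : ℝ :=
  (Xᴴ * G * X).det.re

/-- In one step, `A` increases the squares of the volumes of the parallelepipeds of all dimensions,
measured with the inner product `G`, at most by the factor `K`. -/
def VolumeGrowthLe (K : ℝ) {n : ℕ} (A : Matrix (Fin n) (Fin n) ℤ) (G : Matrix (Fin n) (Fin n) ℂ) : Prop :=
  ∀ (k : ℕ) (X : Matrix (Fin n) (Fin k) ℂ), sqVolume G (toComplex A * X) ≤ K * sqVolume G X

/-- The square of the norm of `D`, with respect to the inner product `G`, is at most `L`. -/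
def SqNormLe (L : ℝ) {n : ℕ} (D : Matrix (Fin n) (Fin n) ℤ) (G : Matrix (Fin n) (Fin n) ℂ) : Prop :=
  ∀ x : Fin n → ℂ,
    (star (toComplex D *ᵥ x) ⬝ᵥ (G *ᵥ (toComplex D *ᵥ x))).re ≤ L * (star x ⬝ᵥ (G *ᵥ x)).re

/-- The Mahler measure of an integer polynomial in one variable. -/
def mahlerOne (P : ℤ[X]) : ℝ := (P.map (Int.castRingHom ℂ)).mahlerMeasure

/-- The Mahler measures of the characteristic polynomials of the matrices `A`. -/
def matrixMeasures (L K : ℝ) (s : ℕ) : Set ℝ :=
  {x : ℝ | ∃ (n : ℕ) (A D : Matrix (Fin n) (Fin n) ℤ) (G : Matrix (Fin n) (Fin n) ℂ), G.PosDef ∧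
    (VolumeGrowthLe K A G ∨ VolumeGrowthLe K (A + D) G) ∧ (toComplex D).rank ≤ s ∧ SqNormLe L D G ∧
    (∀ d : ℤ[X], d ∣ A.charpoly → d ∣ (A + D).charpoly → mahlerOne d = 1) ∧
    x = mahlerOne A.charpoly}

theorem result (L K : ℝ) (s : ℕ) :
    closure (matrixMeasures L K s) ⊆ allMeasures ∧
      (∃ m : ℕ, derivedSet^[m] (closure (matrixMeasures L K s)) = ∅) ∧
      closure ((Submonoid.closure (matrixMeasures L K s) : Submonoid ℝ) : Set ℝ) ⊆ allMeasures ∧
      ∀ B : ℝ, ∃ m : ℕ, ∀ x ∈ derivedSet^[m]
        ((Submonoid.closure (matrixMeasures L K s) : Submonoid ℝ) : Set ℝ), B ≤ x := by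
  obtain ⟨C, hC⟩ := Pool.Agent.Q188.RK.RM_LL L K s
  have hcl : closure (matrixMeasures L K s) ⊆ Pool.Agent.H261R2.CM.LL C :=
    (Pool.Agent.H261R2.CM.closed_LL C).closure_subset_iff.mpr hC
  have hBC : Pool.Agent.TH845.KN.BC (matrixMeasures L K s) := fun B =>
    ⟨C, fun x hx => hC hx.1⟩
  obtain ⟨h1, h2⟩ := Pool.Agent.W242.IM.closure_of_LL _ (Pool.Agent.TH845.KN.BC_monoid hBC)
  refine ⟨hcl.trans (Pool.Agent.W242.IM.LL_sub C), ?_, h1, h2⟩
  obtain ⟨m, hm⟩ := Pool.Agent.H887R3.LW.finite_rank C
  refine ⟨m, ?_⟩
  have h := Pool.Agent.H887R3.LW.iterate_derived_mono hcl m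
  rw [hm] at h
  exact Set.subset_eq_empty h rfl

end

end Pool.Agent.Results.MP_6d22ea_nt.VolumeGrowthClosure
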